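import Mathlib
import Pool.Agent.H89.WF.Main

set_option autoImplicit false

/-!
# Coexistence of partial oscillator death and partial locking in the Winfree model
-/

namespace Pool.Agent.Results.MP_3a3e96_an.CoexistenceHalfPlane

open Pool.Agent.H63.Winfree

/-- The property of `ρ₁, ρ₂, γ, κ` asked for in Q1: for every `N ≥ 1`, all frequencies `ω` and all
disjoint groups `B`, `C` with `|B| ≥ ρ₁ N`, `|C| ≥ ρ₂ N`, `ωᵢ ∈ [-γ, γ]` on `B` and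
`ωᵢ ∈ [1 - γ, 1 + γ]` on `C`, there is an initial datum from which a solution on `[0, ∞)` exists
and every solution exhibits both `B`-partial oscillator death and `C`-partial locking. -/
def Coexistence (ρ₁ ρ₂ γ κ : ℝ) : Prop :=
  ∀ N : ℕ, 1 ≤ N → ∀ ω : Fin N → ℝ, ∀ B C : Finset (Fin N), Disjoint B C →
    ρ₁ * N ≤ B.card → ρ₂ * N ≤ C.card →
    (∀ i ∈ B, ω i ∈ Set.Icc (-γ) γ) → (∀ i ∈ C, ω i ∈ Set.Icc (1 - γ) (1 + γ)) →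
    ∃ Θ₀ : Fin N → ℝ, (∃ Θ, IsSolution ω κ Θ ∧ Θ 0 = Θ₀) ∧
      ∀ Θ, IsSolution ω κ Θ → Θ 0 = Θ₀ → PartialDeath B Θ ∧ PartialLocking C Θ

/-- The same property for all initial data with `|θᵢ| ≤ d` on `B` and `|θᵢ - θⱼ| ≤ d` on `C`; the
initial phases of all other oscillators are arbitrary. -/
def RobustCoexistence (ρ₁ ρ₂ γ κ d : ℝ) : Prop :=
  ∀ N : ℕ, 1 ≤ N → ∀ ω : Fin N → ℝ, ∀ B C : Finset (Fin N), Disjoint B C →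
    ρ₁ * N ≤ B.card → ρ₂ * N ≤ C.card →
    (∀ i ∈ B, ω i ∈ Set.Icc (-γ) γ) → (∀ i ∈ C, ω i ∈ Set.Icc (1 - γ) (1 + γ)) →
    ∀ Θ₀ : Fin N → ℝ, (∀ i ∈ B, |Θ₀ i| ≤ d) → (∀ i ∈ C, ∀ j ∈ C, |Θ₀ i - Θ₀ j| ≤ d) →
      (∃ Θ, IsSolution ω κ Θ ∧ Θ 0 = Θ₀) ∧
      ∀ Θ, IsSolution ω κ Θ → Θ 0 = Θ₀ → PartialDeath B Θ ∧ PartialLocking C Θ

/-- For all `ρ₁, ρ₂ > 0` with `ρ₁ + ρ₂ ≤ 1` and `ρ₁ + 2 ρ₂ > 1` the property of Q1 holds for every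
small `κ` and every `γ` below an explicit multiple of `κ`, and it holds from all initial data in an
explicit set with nonempty interior. The second part is the property of Q1 for `ρ₁ = 1 / 8`,
`ρ₂ = 3 / 4`, `γ = 10⁻⁶` and `κ = 1 / 100`. -/
theorem result :
    (∀ ρ₁ ρ₂ κ γ : ℝ, 0 < ρ₁ → 0 < ρ₂ → ρ₁ + ρ₂ ≤ 1 → 1 < ρ₁ + 2 * ρ₂ →
      0 < κ → κ ≤ (ρ₁ + 2 * ρ₂ - 1) / 60 → γ ≤ ρ₁ * (ρ₁ + 2 * ρ₂ - 1) ^ 2 * κ / 400 →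
        RobustCoexistence ρ₁ ρ₂ γ κ ((ρ₁ + 2 * ρ₂ - 1) / 25)) ∧
    Coexistence (1 / 8) (3 / 4) (1 / 10 ^ 6) (1 / 100) := by
  have main : ∀ ρ₁ ρ₂ κ γ : ℝ, 0 < ρ₁ → 0 < ρ₂ → ρ₁ + ρ₂ ≤ 1 → 1 < ρ₁ + 2 * ρ₂ →
      0 < κ → κ ≤ (ρ₁ + 2 * ρ₂ - 1) / 60 → γ ≤ ρ₁ * (ρ₁ + 2 * ρ₂ - 1) ^ 2 * κ / 400 →
        RobustCoexistence ρ₁ ρ₂ γ κ ((ρ₁ + 2 * ρ₂ - 1) / 25) := by
    intro ρ₁ ρ₂ κ γ h1 h2 h3 h4 h5 h6 h7 N hN ω B C hd hB hC hωB hωC Θ₀ hΘB hΘC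
    have hη : 0 < ρ₁ + 2 * ρ₂ - 1 := by linarith
    refine ⟨exists_solution ω κ Θ₀, fun Θ hΘ h0 => ?_⟩
    refine Pool.Agent.H89.WF.main hN ω B C hd h1 h2 h3 hη rfl h5 h6 h7 hB hC
      (fun i hi => abs_le.mpr (hωB i hi)) (fun i hi => ?_) Θ hΘ (fun i hi => ?_)
      (fun i hi j hj => ?_)
    · have := hωC i hi
      rw [Set.mem_Icc] at this
      rw [abs_le]
      constructor <;> linarith [this.1, this.2]
    · rw [h0]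
      exact (hΘB i hi).trans_lt (by linarith)
    · rw [h0]
      exact hΘC i hi j hj
  refine ⟨main, ?_⟩
  have key := main (1 / 8) (3 / 4) (1 / 100) (1 / 10 ^ 6) (by norm_num) (by norm_num)
    (by norm_num) (by norm_num) (by norm_num) (by norm_num) (by norm_num)
  intro N hN ω B C hd hB hC hωB hωC
  refine ⟨0, key N hN ω B C hd hB hC hωB hωC 0 (fun i _ => ?_) (fun i _ j _ => ?_)⟩
  · rw [Pi.zero_apply, abs_zero]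
    norm_num
  · rw [Pi.zero_apply, Pi.zero_apply, sub_self, abs_zero]
    norm_num

end Pool.Agent.Results.MP_3a3e96_an.CoexistenceHalfPlane
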